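import Pool.Agent.H.MP_61e712_co.A

set_option autoImplicit false

namespace Pool.Agent.Results.MP_61e712_co.Quadratic

open Pool.Agent.H.MP_61e712_co

theorem result : ∀ c : ℝ, c < 1 → ∃ N : ℕ, ∀ (m n : ℕ) (f : Equiv.Perm (Fin m))
    (g : Equiv.Perm (Fin n)), N ≤ m → m ≤ n → (n : ℝ) ≤ c * (m : ℝ) ^ 2 → Costas f → Costas g →
    ∃ (i j : Fin m) (k l : Fin n), i < j ∧ k < l ∧ vec f i j = vec g k l := by
  intro c hc
  obtain ⟨s, s0, s1, hs⟩ : ∃ s : ℝ, 0 < s ∧ s < 1 ∧ c ≤ s ^ 2 :=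
    ⟨√(max c (1 / 2)), Real.sqrt_pos.2 (lt_max_of_lt_right (by norm_num)),
      (Real.sqrt_lt' one_pos).2 (by rw [one_pow]; exact max_lt hc (by norm_num)),
      by rw [Real.sq_sqrt (le_max_of_le_right (by norm_num))]; exact le_max_left _ _⟩
  obtain ⟨N, hN⟩ := num s0 s1
  refine ⟨⌈N⌉₊, fun m n f g h1 h2 h3 hf hg => ?_⟩
  by_contra h
  push Not at h
  obtain ⟨L, hL⟩ := hN m n (Nat.ceil_le.1 h1) (by exact_mod_cast h2)
    (h3.trans (mul_le_mul_of_nonneg_right hs (sq_nonneg _)))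
  have := hL (E f L).card (E g L).card (by exact_mod_cast low hf L) (by exact_mod_cast low hg L)
  have h4 : ((E f L).card : ℝ) + (E g L).card ≤ (L : ℝ) ^ 4 := by exact_mod_cast up h L
  linarith

end Pool.Agent.Results.MP_61e712_co.Quadratic
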